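import Pool.Agent.V5helper73.SZ.Stm
import Pool.Agent.V5helper73.GC.TAIL

/-! # Project SZ (helper73), job HAR2 (helper27) -/

set_option autoImplicit false
open Complex Metric Set Filter Topology

namespace V5helper27.SZ

open V5helper73.SZ V5helper73.GC

theorem fin_range (n : ℕ) (G : ℕ → ℕ → ℝ) : ∑ j : Fin n, ∑ l : Fin n, (if l < j then G j l else 0) =
    ∑ j ∈ Finset.range n, ∑ l ∈ Finset.range j, G j l := by
  rw [Finset.sum_range (fun j => ∑ l ∈ Finset.range j, G j l)]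
  refine Finset.sum_congr rfl fun j _ => ?_
  have h3 : ∀ l : Fin n, (if l < j then G j l else 0) = (fun l : ℕ => if l < (j : ℕ) then G j l else 0) l := by
    intro l
    simp only [Fin.lt_def]
  rw [Finset.sum_congr rfl fun l _ => h3 l, ← Finset.sum_range (fun l : ℕ => if l < (j : ℕ) then G j l else 0)]
  rw [← Finset.sum_filter]
  congr 1
  ext l
  simp only [Finset.mem_filter, Finset.mem_range]
  have := j.2
  constructor
  · intro h; exact h.2
  · intro h; exact ⟨by omega, h⟩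

theorem pt_norm (k i : ℕ) : ‖pt k i‖ = 1 - (1 / 2 : ℝ) ^ k := by
  unfold pt
  rw [norm_mul, Complex.norm_real, Complex.norm_exp_ofReal_mul_I, mul_one, Real.norm_of_nonneg]
  have : (1 / 2 : ℝ) ^ k ≤ 1 := pow_le_one₀ (by norm_num) (by norm_num)
  linarith

theorem pt_ball (k i : ℕ) : pt k i ∈ ball (0:ℂ) 1 := by
  rw [mem_ball_zero_iff, pt_norm]
  have : (0:ℝ) < (1 / 2 : ℝ) ^ k := by positivity
  linarith

theorem pt_circle (m j : ℕ) : pt m j = circleMap 0 (1 - (1 / 2 : ℝ) ^ m) (2 * Real.pi * j / 2 ^ m) := by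
  unfold pt circleMap
  rw [zero_add]

/-- the angle `arg (1 - conj a ρ e^{iθ})` is Lipschitz -/
theorem tau_lip {a : ℂ} (ha : ‖a‖ < 1) {ρ : ℝ} (h0 : 0 ≤ ρ) (h1 : ρ ≤ 1) (θ θ' : ℝ) :
    |(Complex.log (1 - (starRingEnd ℂ) a * circleMap 0 ρ θ')).im - (Complex.log (1 - (starRingEnd ℂ) a * circleMap 0 ρ θ)).im| ≤
      1 / (1 - ‖a‖) * |θ' - θ| := by
  have hn : ∀ t : ℝ, ‖(starRingEnd ℂ) a * circleMap 0 ρ t‖ ≤ ‖a‖ := by
    intro t
    rw [norm_mul, RCLike.norm_conj]
    have : ‖circleMap 0 ρ t‖ ≤ 1 := by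
      rw [norm_circleMap_zero, abs_of_nonneg h0]
      exact h1
    calc ‖a‖ * ‖circleMap 0 ρ t‖ ≤ ‖a‖ * 1 := by gcongr
      _ = ‖a‖ := mul_one _
  have hre : ∀ t : ℝ, 1 - ‖a‖ ≤ (1 - (starRingEnd ℂ) a * circleMap 0 ρ t).re := by
    intro t
    have := Complex.re_le_norm ((starRingEnd ℂ) a * circleMap 0 ρ t)
    have h2 := hn t
    simp only [Complex.sub_re, Complex.one_re]
    linarith
  have hd : 0 < 1 - ‖a‖ := by linarith
  have hder : ∀ t ∈ (Set.univ : Set ℝ), HasDerivWithinAt (fun t : ℝ => Complex.log (1 - (starRingEnd ℂ) a * circleMap 0 ρ t))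
      (-((starRingEnd ℂ) a * (circleMap 0 ρ t * I)) / (1 - (starRingEnd ℂ) a * circleMap 0 ρ t)) Set.univ t := by
    intro t _
    have e1 : HasDerivAt (fun t : ℝ => 1 - (starRingEnd ℂ) a * circleMap 0 ρ t) (-((starRingEnd ℂ) a * (circleMap 0 ρ t * I))) t :=
      ((hasDerivAt_circleMap 0 ρ t).const_mul _).const_sub 1
    exact (e1.clog_real (Or.inl (by linarith [hre t]))).hasDerivWithinAt
  have hbd : ∀ t ∈ (Set.univ : Set ℝ), ‖-((starRingEnd ℂ) a * (circleMap 0 ρ t * I)) / (1 - (starRingEnd ℂ) a * circleMap 0 ρ t)‖ ≤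
      1 / (1 - ‖a‖) := by
    intro t _
    rw [norm_div, norm_neg, ← mul_assoc, norm_mul, Complex.norm_I, mul_one]
    have h3 : 1 - ‖a‖ ≤ ‖1 - (starRingEnd ℂ) a * circleMap 0 ρ t‖ := (hre t).trans (Complex.re_le_norm _)
    have h4 := hn t
    exact div_le_div₀ zero_le_one (by linarith) hd h3
  have h5 := Convex.norm_image_sub_le_of_norm_hasDerivWithin_le hder hbd convex_univ (Set.mem_univ θ) (Set.mem_univ θ')
  rw [Real.norm_eq_abs] at h5
  refine le_trans ?_ h5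
  rw [← Complex.sub_im]
  exact Complex.abs_im_le_norm _

theorem t_HAR2 (hL : S_LOGM) : S_HAR2 := by
  refine ⟨24, by norm_num, fun k m i hkm n σ hσ hσ1 hσ2 => ?_⟩
  have hpi := Real.pi_pos
  rcases Nat.lt_or_ge n 2 with hn | hn
  · -- at most one point
    have h0 : yb (fun t => bm (pt k i) (pt m (σ t))) = 0 := by
      unfold yb
      have : ∀ j l : Fin n, ¬ l < j := by
        intro j l h
        have := j.2
        have := l.2
        have h' : (l : ℕ) < j := h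
        omega
      rw [Finset.sum_eq_zero, mul_zero]
      intro j _
      exact Finset.sum_eq_zero fun l _ => if_neg (this j l)
    rw [h0]
    have h1 : n = 0 ∨ n = 1 := by omega
    rcases h1 with rfl | rfl
    · simp
    · simp
  -- `m ≥ 3`
  have hm3 : 3 ≤ m := by
    by_contra hcon
    have hm : m ≤ 2 := by omega
    have h1 := hσ2 ⟨0, by omega⟩ ⟨1, by omega⟩
    have h2 := hσ (show (⟨0, by omega⟩ : Fin n) < ⟨1, by omega⟩ by rw [Fin.lt_def]; norm_num)
    have h3 : 2 ^ m ≤ 2 ^ 2 := Nat.pow_le_pow_right (by norm_num) hm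
    omega
  set a : ℂ := pt k i with had
  have ha : ‖a‖ < 1 := mem_ball_zero_iff.1 (pt_ball k i)
  have ha2 : 1 / (1 - ‖a‖) = 2 ^ k := by
    rw [had, pt_norm, sub_sub_cancel, one_div_pow, one_div_one_div]
  set ρ : ℝ := 1 - (1 / 2 : ℝ) ^ m with hρ
  have hpm : (1 / 2 : ℝ) ^ m ≤ 1 / 8 := by
    calc (1 / 2 : ℝ) ^ m ≤ (1 / 2) ^ 3 := pow_le_pow_of_le_one (by norm_num) (by norm_num) hm3
      _ = 1 / 8 := by norm_num
  have hpm0 : 0 < (1 / 2 : ℝ) ^ m := by positivity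
  have hρ0 : 0 < ρ := by rw [hρ]; linarith
  have hρ1 : ρ < 1 := by rw [hρ]; linarith
  have h2m : (0:ℝ) < 2 ^ m := by positivity
  have h2k : (0:ℝ) < 2 ^ k := by positivity
  have e2m : (1 / 2 : ℝ) ^ m = 1 / 2 ^ m := by rw [one_div_pow]
  set θ : ℕ → ℝ := fun j => if h : j < n then 2 * Real.pi * (σ ⟨j, h⟩ : ℝ) / 2 ^ m else 0 with hθ
  have hθv : ∀ j : Fin n, θ j = 2 * Real.pi * (σ j : ℝ) / 2 ^ m := by
    intro j
    simp only [hθ, dif_pos j.2]
  have hz : ∀ t : Fin n, pt m (σ t) = circleMap 0 ρ (θ t) := by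
    intro t
    rw [pt_circle, hθv]
  -- monotonicity
  have hθmono : ∀ p q : ℕ, p ≤ q → q < n → θ p ≤ θ q := by
    intro p q hpq hq
    have h1 := hθv ⟨p, by omega⟩
    have h2 := hθv ⟨q, hq⟩
    simp only at h1 h2
    rw [h1, h2]
    have h3 : σ ⟨p, by omega⟩ ≤ σ ⟨q, hq⟩ := hσ.monotone (by rw [Fin.le_def]; exact hpq)
    have h4 : (σ ⟨p, by omega⟩ : ℝ) ≤ σ ⟨q, hq⟩ := by exact_mod_cast h3
    gcongr
  have hgap : ∀ p : ℕ, p + 1 < n → θ p + 2 * Real.pi / 2 ^ m ≤ θ (p + 1) := by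
    intro p hp
    have h1 := hθv ⟨p, by omega⟩
    have h2 := hθv ⟨p + 1, hp⟩
    simp only at h1 h2
    rw [h1, h2]
    have h3 : σ ⟨p, by omega⟩ < σ ⟨p + 1, hp⟩ := hσ (by rw [Fin.lt_def]; simp)
    have h4 : (σ ⟨p, by omega⟩ : ℝ) + 1 ≤ σ ⟨p + 1, hp⟩ := by exact_mod_cast h3
    rw [← add_div]
    have : 2 * Real.pi * (σ ⟨p, by omega⟩ : ℝ) + 2 * Real.pi = 2 * Real.pi * ((σ ⟨p, by omega⟩ : ℝ) + 1) := by ring
    rw [this]
    gcongr
  have hend : θ (n - 1) - θ 0 ≤ 1 := by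
    have h1 := hθv ⟨n - 1, by omega⟩
    have h2 := hθv ⟨0, by omega⟩
    simp only at h1 h2
    rw [h1, h2]
    have h3 := hσ2 ⟨0, by omega⟩ ⟨n - 1, by omega⟩
    have h4 : 8 * (σ ⟨n - 1, by omega⟩ : ℝ) ≤ 8 * (σ ⟨0, by omega⟩ : ℝ) + 2 ^ m := by exact_mod_cast h3
    rw [← sub_div, div_le_one h2m]
    have h5 := Real.pi_lt_four
    nlinarith
  -- the first part
  have hA := V5helper47.GC.t_HAR (ρ ^ 2) (2 * Real.pi / 2 ^ m) (by rw [hρ]; nlinarith) (by nlinarith) (by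
    have h5 := Real.pi_gt_three
    have h6 : (1 - ρ ^ 2) / 2 ≤ (1 / 2 : ℝ) ^ m := by rw [hρ]; nlinarith
    refine h6.trans ?_
    rw [e2m]
    gcongr
    linarith) n θ hgap hend
  -- the second part
  have hB : ∑ j ∈ Finset.range n, ∑ l ∈ Finset.range j, (2 ^ k * θ j - 2 ^ k * θ l) / ((j : ℝ) - l) ≤ 2 * Real.pi * n := by
    have h1 := V5helper47.GC.C_le (n := n) (θ := fun j => 2 ^ k * θ j / (2 * Real.pi)) (by
      intro p q hpq hq
      have := hθmono p q hpq hq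
      gcongr) (by
      have h1 := hθv ⟨n - 1, by omega⟩
      have h2 := hθv ⟨0, by omega⟩
      simp only at h1 h2
      rw [h1, h2]
      have h3 := (hσ1 ⟨n - 1, by omega⟩).2
      have h4 := (hσ1 ⟨0, by omega⟩).2
      have hp : 0 < 2 ^ (m - k) := by positivity
      have h5 : σ ⟨n - 1, by omega⟩ < (i + 1) * 2 ^ (m - k) := by
        have := Nat.div_lt_iff_lt_mul hp |>.1 (show σ ⟨n - 1, by omega⟩ / 2 ^ (m - k) < i + 1 by omega)
        exact this
      have h6 : i * 2 ^ (m - k) ≤ σ ⟨0, by omega⟩ := by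
        rw [← h4]
        exact Nat.div_mul_le_self _ _
      have h7 : (σ ⟨n - 1, by omega⟩ : ℝ) ≤ (σ ⟨0, by omega⟩ : ℝ) + 2 ^ (m - k) := by
        have : σ ⟨n - 1, by omega⟩ ≤ σ ⟨0, by omega⟩ + 2 ^ (m - k) := by nlinarith
        exact_mod_cast this
      have e1 : (2:ℝ) ^ m = 2 ^ k * 2 ^ (m - k) := by
        rw [← pow_add]
        congr 1
        omega
      have hmk : (0:ℝ) < 2 ^ (m - k) := by positivity
      have e2 : ∀ x : ℝ, 2 ^ k * (2 * Real.pi * x / 2 ^ m) / (2 * Real.pi) = x / 2 ^ (m - k) := by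
        intro x
        rw [e1]
        field_simp
      rw [e2, e2, ← sub_div, div_le_one hmk]
      linarith)
    have h2 : ∑ j ∈ Finset.range n, ∑ l ∈ Finset.range j, (2 ^ k * θ j - 2 ^ k * θ l) / ((j : ℝ) - l) =
        2 * Real.pi * ∑ j ∈ Finset.range n, ∑ l ∈ Finset.range j,
          ((2 ^ k * θ j / (2 * Real.pi)) - (2 ^ k * θ l / (2 * Real.pi))) / ((j : ℝ) - l) := by
      rw [Finset.mul_sum]
      refine Finset.sum_congr rfl fun j _ => ?_
      rw [Finset.mul_sum]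
      refine Finset.sum_congr rfl fun l _ => ?_
      rw [← sub_div, mul_div_assoc', mul_div_assoc']
      congr 1
      field_simp
    rw [h2]
    exact mul_le_mul_of_nonneg_left h1 (by positivity)
  -- the terms
  have hterm : ∀ j l : Fin n, l < j → bk (ρ ^ 2) (θ j - θ l) / ((j : ℝ) - l) - (2 ^ k * θ j - 2 ^ k * θ l) / ((j : ℝ) - l) ≤
      (-Complex.log (1 - bm a (pt m (σ j)) * (starRingEnd ℂ) (bm a (pt m (σ l))))).im / ((j : ℝ) - (l : ℝ)) := by
    intro j l hlj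
    have hlj' : (l : ℕ) < j := hlj
    have hk0 : (0:ℝ) < (j : ℝ) - l := by
      have : (l : ℝ) < j := by exact_mod_cast hlj'
      linarith
    rw [← sub_div]
    apply div_le_div_of_nonneg_right _ hk0.le
    rw [hL a (pt_ball k i) (pt m (σ j)) (pt_ball _ _) (pt m (σ l)) (pt_ball _ _), hz j, hz l]
    have e1 : (Complex.log (1 - a * (starRingEnd ℂ) a)).im = 0 := by
      rw [Complex.mul_conj, ← Complex.ofReal_one, ← Complex.ofReal_sub, Complex.log_im]
      apply Complex.arg_ofReal_of_nonneg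
      rw [Complex.normSq_eq_norm_sq]
      nlinarith [norm_nonneg a]
    have e2 : (Complex.log (1 - a * (starRingEnd ℂ) (circleMap 0 ρ (θ l)))).im =
        -(Complex.log (1 - (starRingEnd ℂ) a * circleMap 0 ρ (θ l))).im := by
      have h3 : 1 - a * (starRingEnd ℂ) (circleMap 0 ρ (θ l)) = (starRingEnd ℂ) (1 - (starRingEnd ℂ) a * circleMap 0 ρ (θ l)) := by
        simp only [map_sub, map_one, map_mul, Complex.conj_conj]
      have h4 : (1 - (starRingEnd ℂ) a * circleMap 0 ρ (θ l)).arg ≠ Real.pi := by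
        have hn : ‖(starRingEnd ℂ) a * circleMap 0 ρ (θ l)‖ < 1 := by
          rw [norm_mul, RCLike.norm_conj, norm_circleMap_zero, abs_of_pos hρ0]
          nlinarith [norm_nonneg a]
        intro h5
        have h6 := Complex.arg_eq_pi_iff.1 h5
        have h7 := Complex.re_le_norm ((starRingEnd ℂ) a * circleMap 0 ρ (θ l))
        have h8 := h6.1
        simp only [Complex.sub_re, Complex.one_re] at h8
        linarith
      rw [h3, Complex.log_conj _ h4, Complex.conj_im]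
    have e3 := BB_im hρ0 hρ1 (θ j) (θ l)
    unfold BB at e3
    rw [Complex.neg_im] at e3
    have h5 := tau_lip ha hρ0.le hρ1.le (θ l) (θ j)
    rw [ha2] at h5
    have h6 : 0 ≤ θ j - θ l := by
      have := hθmono l j hlj'.le j.2
      linarith
    rw [abs_of_nonneg h6] at h5
    have h7 := (abs_le.1 h5).1
    simp only [Complex.neg_im, Complex.sub_im, Complex.add_im]
    rw [e1, e2]
    nlinarith
  unfold yb
  have hsum : ∑ j : Fin n, ∑ l : Fin n, (if l < j then bk (ρ ^ 2) (θ j - θ l) / ((j : ℝ) - l) -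
      (2 ^ k * θ j - 2 ^ k * θ l) / ((j : ℝ) - l) else 0) ≤
      ∑ j : Fin n, ∑ l : Fin n, if l < j then
        (-Complex.log (1 - bm a (pt m (σ j)) * (starRingEnd ℂ) (bm a (pt m (σ l))))).im / ((j : ℝ) - (l : ℝ)) else 0 := by
    refine Finset.sum_le_sum fun j _ => Finset.sum_le_sum fun l _ => ?_
    split_ifs with h
    · exact hterm j l h
    · exact le_rfl
  rw [fin_range n (fun j l => bk (ρ ^ 2) (θ j - θ l) / ((j : ℝ) - l) - (2 ^ k * θ j - 2 ^ k * θ l) / ((j : ℝ) - l))] at hsum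
  simp only [Finset.sum_sub_distrib] at hsum
  have h9 := mul_le_mul_of_nonneg_left hsum (show 0 ≤ 2 / Real.pi by positivity)
  refine le_trans ?_ h9
  rw [mul_sub (2 / Real.pi)]
  have h10 := mul_le_mul_of_nonneg_left hB (show 0 ≤ 2 / Real.pi by positivity)
  have h11 : 2 / Real.pi * (2 * Real.pi * n) = 4 * n := by field_simp; ring
  rw [h11] at h10
  have h12 : (n : ℝ) * (Real.log n - 24) = (n : ℝ) * (Real.log n - 20) - 4 * n := by ring
  rw [h12]
  linarith

end V5helper27.SZ
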