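import Pool.Agent.V5helper73.SZ.Stm
import Pool.Agent.W677.MarG2

/-! # Project SZ (helper73), job LOGM (helper27) -/

set_option autoImplicit false
open Complex Metric Set Filter Topology

namespace V5helper27.SZ

open V5helper73.SZ

theorem den_ne {a z : ℂ} (ha : ‖a‖ < 1) (hz : ‖z‖ < 1) : 1 - (starRingEnd ℂ) a * z ≠ 0 := by
  intro h
  have h1 : ‖(starRingEnd ℂ) a * z‖ = 1 := by
    have : (starRingEnd ℂ) a * z = 1 := by linear_combination -h
    rw [this, norm_one]
  rw [norm_mul, RCLike.norm_conj] at h1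
  nlinarith [norm_nonneg a, norm_nonneg z]

theorem bm_norm {a z : ℂ} (ha : ‖a‖ < 1) (hz : ‖z‖ < 1) : ‖bm a z‖ < 1 := by
  have hd := den_ne ha hz
  unfold bm
  rw [norm_div, div_lt_one (norm_pos_iff.2 hd)]
  have key : ‖z - a‖ ^ 2 < ‖1 - (starRingEnd ℂ) a * z‖ ^ 2 := by
    have e : ‖1 - (starRingEnd ℂ) a * z‖ ^ 2 - ‖z - a‖ ^ 2 = (1 - ‖a‖ ^ 2) * (1 - ‖z‖ ^ 2) := by
      rw [← Complex.normSq_eq_norm_sq, ← Complex.normSq_eq_norm_sq, ← Complex.normSq_eq_norm_sq,
        ← Complex.normSq_eq_norm_sq]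
      simp only [Complex.normSq_apply, Complex.sub_re, Complex.sub_im, Complex.mul_re, Complex.mul_im,
        Complex.one_re, Complex.one_im, Complex.conj_re, Complex.conj_im]
      ring
    have h1 : 0 < (1 - ‖a‖ ^ 2) * (1 - ‖z‖ ^ 2) := by
      apply mul_pos
      · nlinarith [norm_nonneg a]
      · nlinarith [norm_nonneg z]
    linarith
  exact lt_of_pow_lt_pow_left₀ 2 (norm_nonneg _) key

theorem slit_of_norm {w : ℂ} (hw : ‖w‖ < 1) : 1 - w ∈ Complex.slitPlane := by
  left
  have := (Complex.re_le_norm w)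
  simp only [Complex.sub_re, Complex.one_re]
  linarith

theorem norm_mul_lt {x y : ℂ} (hx : ‖x‖ < 1) (hy : ‖y‖ < 1) : ‖x * y‖ < 1 := by
  rw [norm_mul]
  nlinarith [norm_nonneg x, norm_nonneg y]

theorem alg4 {b z B U : ℂ} (h4 : 1 - B * z ≠ 0) (h5 : 1 - b * U ≠ 0) :
    1 - (z - b) / (1 - B * z) * ((U - B) / (1 - b * U)) = (1 - b * B) * (1 - z * U) / (1 - B * z) / (1 - b * U) := by
  have h4' : 1 - z * B ≠ 0 := by rw [mul_comm z B]; exact h4
  rw [eq_div_iff h5, eq_div_iff h4]
  have e1 : (z - b) / (1 - B * z) * ((U - B) / (1 - b * U)) * ((1 - b * U) * (1 - B * z)) = (z - b) * (U - B) := by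
    field_simp
  linear_combination -e1

theorem t_LOGM : S_LOGM := by
  intro a ha z hz u hu
  rw [mem_ball_zero_iff] at ha hz hu
  have hcu : ‖(starRingEnd ℂ) u‖ < 1 := by rwa [RCLike.norm_conj]
  refine Pool.Agent.W677.Mar.exp_unique (f := fun a : ℂ => Complex.log (1 - bm a z * (starRingEnd ℂ) (bm a u)))
    (g := fun a : ℂ => Complex.log (1 - a * (starRingEnd ℂ) a) + Complex.log (1 - z * (starRingEnd ℂ) u) -
      Complex.log (1 - (starRingEnd ℂ) a * z) - Complex.log (1 - a * (starRingEnd ℂ) u))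
    (convex_ball (0 : ℂ) 1).isPreconnected ?_ ?_ ?_ (mem_ball_self one_pos) ?_ (mem_ball_zero_iff.2 ha)
  · -- continuity of the left side
    have hbm : ∀ v : ℂ, ‖v‖ < 1 → ContinuousOn (fun a : ℂ => bm a v) (ball 0 1) := by
      intro v hv
      unfold bm
      refine ContinuousOn.div (by fun_prop) (by fun_prop) ?_
      intro b hb
      exact den_ne (mem_ball_zero_iff.1 hb) hv
    refine ContinuousOn.clog (continuousOn_const.sub ((hbm z hz).mul (Complex.continuous_conj.comp_continuousOn (hbm u hu)))) ?_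
    intro b hb
    have hb' := mem_ball_zero_iff.1 hb
    exact slit_of_norm (norm_mul_lt (bm_norm hb' hz) (by rw [RCLike.norm_conj]; exact bm_norm hb' hu))
  · refine ContinuousOn.sub (ContinuousOn.sub (ContinuousOn.add ?_ continuousOn_const) ?_) ?_
    · refine ContinuousOn.clog (by fun_prop) ?_
      intro b hb
      have hb' := mem_ball_zero_iff.1 hb
      exact slit_of_norm (norm_mul_lt hb' (by rwa [RCLike.norm_conj]))
    · refine ContinuousOn.clog (by fun_prop) ?_
      intro b hb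
      have hb' := mem_ball_zero_iff.1 hb
      exact slit_of_norm (norm_mul_lt (by rwa [RCLike.norm_conj]) hz)
    · refine ContinuousOn.clog (by fun_prop) ?_
      intro b hb
      have hb' := mem_ball_zero_iff.1 hb
      exact slit_of_norm (norm_mul_lt hb' hcu)
  · intro b hb
    have hb' := mem_ball_zero_iff.1 hb
    have hbc : ‖(starRingEnd ℂ) b‖ < 1 := by rwa [RCLike.norm_conj]
    have n1 := Complex.slitPlane_ne_zero (slit_of_norm (norm_mul_lt (bm_norm hb' hz)
      (show ‖(starRingEnd ℂ) (bm b u)‖ < 1 by rw [RCLike.norm_conj]; exact bm_norm hb' hu)))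
    have n2 := Complex.slitPlane_ne_zero (slit_of_norm (norm_mul_lt hb' hbc))
    have n3 := Complex.slitPlane_ne_zero (slit_of_norm (norm_mul_lt hz hcu))
    have n4 := Complex.slitPlane_ne_zero (slit_of_norm (norm_mul_lt hbc hz))
    have n5 := Complex.slitPlane_ne_zero (slit_of_norm (norm_mul_lt hb' hcu))
    rw [Complex.exp_log n1, Complex.exp_sub, Complex.exp_sub, Complex.exp_add, Complex.exp_log n2, Complex.exp_log n3,
      Complex.exp_log n4, Complex.exp_log n5]
    unfold bm
    simp only [map_div₀, map_sub, map_mul, map_one, Complex.conj_conj]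
    exact alg4 n4 n5
  · simp [bm]

end V5helper27.SZ
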